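import Mathlib

/-!
Definitions: continuous outer measures, complete subalgebras, countably generated complete
subalgebras and measures on a complete subalgebra of a complete Boolean algebra.
-/

set_option autoImplicit false

namespace Pool.Agent.H648BA

open Filter Topology Function

variable {B : Type*} [CompleteBooleanAlgebra B]

/-- A continuous outer measure on a complete Boolean algebra: `m ⊥ = 0`, strictly positive on nonzero
elements, monotone, subadditive, and `m (a n) → 0` for every decreasing sequence with infimum `⊥`. -/
structure IsContinuousOuterMeasure (m : B → ℝ) : Prop where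
  map_bot : m ⊥ = 0
  pos : ∀ a, a ≠ ⊥ → 0 < m a
  mono : ∀ a b, a ≤ b → m a ≤ m b
  subadd : ∀ a b, m (a ⊔ b) ≤ m a + m b
  cont : ∀ a : ℕ → B, Antitone a → ⨅ n, a n = ⊥ → Tendsto (fun n => m (a n)) atTop (𝓝 0)

/-- A complete subalgebra: closed under complements and under all suprema and infima taken in `B`. -/
structure IsCompleteSubalgebra (A : Set B) : Prop where
  compl_mem : ∀ a ∈ A, aᶜ ∈ A
  sSup_mem : ∀ S : Set B, S ⊆ A → sSup S ∈ A
  sInf_mem : ∀ S : Set B, S ⊆ A → sInf S ∈ A

/-- The smallest complete subalgebra containing `S`. -/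
def generated (S : Set B) : Set B := ⋂₀ {A : Set B | IsCompleteSubalgebra A ∧ S ⊆ A}

/-- `μ` is a measure on the complete subalgebra `A`: nonnegative real values, strictly positive on
nonzero elements, and countably additive on sequences of pairwise disjoint elements of `A`. -/
structure IsMeasureOn (A : Set B) (μ : B → ℝ) : Prop where
  nonneg : ∀ a ∈ A, 0 ≤ μ a
  pos : ∀ a ∈ A, a ≠ ⊥ → 0 < μ a
  sigma_add : ∀ f : ℕ → B, (∀ n, f n ∈ A) → Pairwise (Disjoint on f) →
    HasSum (fun n => μ (f n)) (μ (⨆ n, f n))

end Pool.Agent.H648BA
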