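import Mathlib

/-!
Kelley's theorem on intersection numbers: if every finite weighted family in `C ⊆ B` has a nonzero
element below members of at least a `δ`-fraction of the total weight, then some finitely additive
probability on `B` is at least `δ` on `C`.
-/

set_option autoImplicit false

namespace Pool.Agent.H648BA

open Finset Order

variable {B : Type*} [BooleanAlgebra B]

open Classical in
/-- The intersection condition with constant `δ` for a set `C` of elements of a Boolean algebra. -/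
def Inter (C : Set B) (δ : ℝ) : Prop :=
  ∀ n : B →₀ ℕ, (∀ b ∈ n.support, b ∈ C) →
    ∃ x : B, x ≠ ⊥ ∧ δ * ∑ b ∈ n.support, (n b : ℝ) ≤ ∑ b ∈ n.support, if x ≤ b then (n b : ℝ) else 0

/-- indicator of the complement of an ideal -/
noncomputable def ind (J : Ideal B) (b : B) : ℝ := by
  classical exact if b ∈ J then 0 else 1

lemma ind_nonneg (J : Ideal B) (b : B) : 0 ≤ ind J b := by
  unfold ind; split_ifs <;> norm_num

lemma ind_le_one (J : Ideal B) (b : B) : ind J b ≤ 1 := by
  unfold ind; split_ifs <;> norm_num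

lemma ind_top (J : Ideal B) [hJ : Order.Ideal.IsPrime J] : ind J (⊤ : B) = 1 := by
  have : (⊤ : B) ∉ J := hJ.toIsProper.top_notMem
  simp [ind, this]

lemma ind_sup (J : Ideal B) [hJ : Order.Ideal.IsPrime J] {a b : B} (h : Disjoint a b) :
    ind J (a ⊔ b) = ind J a + ind J b := by
  have h0 : a ⊓ b ∈ J := by rw [h.eq_bot]; exact J.bot_mem
  have h1 := hJ.mem_or_mem h0
  unfold ind
  rw [Ideal.sup_mem_iff]
  by_cases ha : a ∈ J <;> by_cases hb : b ∈ J <;> simp [ha, hb] at h1 ⊢

lemma exists_prime (x : B) (hx : x ≠ ⊥) : ∃ J : Ideal B, J.IsPrime ∧ x ∉ J := by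
  have hd : Disjoint ((PFilter.principal x : PFilter B) : Set B) ((Ideal.principal (⊥ : B) : Ideal B) : Set B) := by
    rw [Set.disjoint_left]
    intro y hy hy'
    simp only [SetLike.mem_coe, PFilter.mem_principal, Ideal.mem_principal, le_bot_iff] at hy hy'
    subst hy'
    exact hx (le_bot_iff.mp hy)
  obtain ⟨J, hJ, -, hdis⟩ := DistribLattice.prime_ideal_of_disjoint_filter_ideal hd
  refine ⟨J, hJ, fun hxJ => ?_⟩
  rw [Set.disjoint_left] at hdis
  exact hdis (a := x) (by simp) hxJ

/-- evaluation functional -/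
noncomputable def ev (J : Ideal B) : (B →₀ ℝ) →ₗ[ℝ] ℝ := Finsupp.linearCombination ℝ (ind J)

/-- shifted evaluation functional -/
noncomputable def evs (δ : ℝ) (J : Ideal B) : (B →₀ ℝ) →ₗ[ℝ] ℝ :=
  Finsupp.linearCombination ℝ (fun b => ind J b - δ)

lemma evs_apply (δ : ℝ) (J : Ideal B) (u : B →₀ ℝ) :
    evs δ J u = ∑ b ∈ u.support, u b * (ind J b - δ) := by
  simp [evs, Finsupp.linearCombination_apply, Finsupp.sum]

/-- the cone -/
noncomputable def cone (C : Set B) (δ : ℝ) : PointedCone ℝ (B →₀ ℝ) where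
  carrier := {f | ∃ u : B →₀ ℝ, (∀ b, 0 ≤ u b) ∧ (∀ b, u b ≠ 0 → b ∈ C) ∧
    ∀ J : Ideal B, J.IsPrime → evs δ J u ≤ ev J f}
  add_mem' := by
    rintro f g ⟨u, hu, huC, hf⟩ ⟨v, hv, hvC, hg⟩
    refine ⟨u + v, fun b => add_nonneg (hu b) (hv b), fun b hb => ?_, fun J hJ => ?_⟩
    · by_cases h : u b = 0
      · apply hvC; intro h'; apply hb; simp [h, h']
      · exact huC b h
    · rw [map_add, map_add]; exact add_le_add (hf J hJ) (hg J hJ)
  zero_mem' := ⟨0, fun b => le_rfl, fun b hb => absurd rfl hb, fun J hJ => by simp⟩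
  smul_mem' := by
    rintro ⟨c, hc⟩ f ⟨u, hu, huC, hf⟩
    refine ⟨c • u, fun b => mul_nonneg hc (hu b), fun b hb => ?_, fun J hJ => ?_⟩
    · apply huC; intro h; apply hb; simp [h]
    · have h1 : evs δ J (c • u) = c * evs δ J u := by rw [map_smul]; rfl
      have h2 : ev J ((⟨c, hc⟩ : {c : ℝ // 0 ≤ c}) • f) = c * ev J f := by
        have : ((⟨c, hc⟩ : {c : ℝ // 0 ≤ c}) • f) = c • f := rfl
        rw [this, map_smul]; rfl
      rw [h1, h2]
      exact mul_le_mul_of_nonneg_left (hf J hJ) hc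

open Classical in
/-- the key inequality: real weights reduce to integer weights -/
lemma key [Nontrivial B] (C : Set B) (δ : ℝ) (hδ : 0 ≤ δ) (h : Inter C δ) (u : B →₀ ℝ) (hu : ∀ b, 0 ≤ u b)
    (huC : ∀ b, u b ≠ 0 → b ∈ C) (c : ℝ) (hc : ∀ J : Ideal B, J.IsPrime → evs δ J u ≤ c) : 0 ≤ c := by
  by_contra hneg
  push Not at hneg
  set S := u.support with hS
  obtain ⟨N, hN⟩ := exists_nat_gt ((S.card : ℝ) * (1 + δ) / (-c))
  have hN0 : (S.card : ℝ) * (1 + δ) < N * (-c) := by
    rwa [div_lt_iff₀ (by linarith)] at hN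
  let n : B →₀ ℕ := Finsupp.onFinset S (fun b => ⌊(N : ℝ) * u b⌋₊) (by
    intro b hb
    rw [hS, Finsupp.mem_support_iff]
    intro h0
    apply hb
    simp [h0])
  obtain ⟨x, hx0, hx⟩ := h n (by
    intro b hb
    have hb' : b ∈ S := Finsupp.support_onFinset_subset hb
    exact huC b (Finsupp.mem_support_iff.mp hb'))
  obtain ⟨J, hJ, hxJ⟩ := exists_prime x hx0
  have hsub : n.support ⊆ S := Finsupp.support_onFinset_subset
  have h1 : ∑ b ∈ n.support, (n b : ℝ) = ∑ b ∈ S, (n b : ℝ) := by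
    apply Finset.sum_subset hsub
    intro b _ hb
    simpa using hb
  have h2 : (∑ b ∈ n.support, if x ≤ b then (n b : ℝ) else 0) ≤ ∑ b ∈ S, (n b : ℝ) * ind J b := by
    calc (∑ b ∈ n.support, if x ≤ b then (n b : ℝ) else 0)
        ≤ ∑ b ∈ n.support, (n b : ℝ) * ind J b := by
          apply Finset.sum_le_sum
          intro b _
          split_ifs with hxb
          · have : b ∉ J := fun hb => hxJ (J.lower hxb hb)
            simp [ind, this]
          · exact mul_nonneg (by positivity) (ind_nonneg J b)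
      _ ≤ ∑ b ∈ S, (n b : ℝ) * ind J b := by
          apply Finset.sum_le_sum_of_subset_of_nonneg hsub
          intro b _ _
          exact mul_nonneg (by positivity) (ind_nonneg J b)
  rw [h1] at hx
  have h3 : 0 ≤ ∑ b ∈ S, (n b : ℝ) * (ind J b - δ) := by
    have : ∑ b ∈ S, (n b : ℝ) * (ind J b - δ) = ∑ b ∈ S, (n b : ℝ) * ind J b - δ * ∑ b ∈ S, (n b : ℝ) := by
      rw [Finset.mul_sum, ← Finset.sum_sub_distrib]
      apply Finset.sum_congr rfl
      intro b _; ring
    rw [this]; linarith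
  have h4 : ∀ b ∈ S, (n b : ℝ) * (ind J b - δ) ≤ N * (u b * (ind J b - δ)) + (1 + δ) := by
    intro b _
    have e1 : (n b : ℝ) = (⌊(N : ℝ) * u b⌋₊ : ℝ) := rfl
    have e2 : (n b : ℝ) ≤ N * u b := by
      rw [e1]; exact Nat.floor_le (mul_nonneg (by positivity) (hu b))
    have e3 : N * u b < (n b : ℝ) + 1 := by
      rw [e1]; exact Nat.lt_floor_add_one _
    have i1 := ind_nonneg J b
    have i2 := ind_le_one J b
    nlinarith
  have h5 : ∑ b ∈ S, (n b : ℝ) * (ind J b - δ) ≤ N * evs δ J u + S.card * (1 + δ) := by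
    rw [evs_apply, Finset.mul_sum]
    calc ∑ b ∈ S, (n b : ℝ) * (ind J b - δ) ≤ ∑ b ∈ S, (N * (u b * (ind J b - δ)) + (1 + δ)) :=
          Finset.sum_le_sum h4
      _ = _ := by rw [Finset.sum_add_distrib, Finset.sum_const, nsmul_eq_mul]
  have h6 := hc J hJ
  have h7 : (N : ℝ) * evs δ J u ≤ N * c := mul_le_mul_of_nonneg_left h6 (by positivity)
  nlinarith

theorem kelley [Nontrivial B] (C : Set B) (δ : ℝ) (hδ : 0 ≤ δ) (h : Inter C δ) :
    ∃ ν : B → ℝ, (∀ b, 0 ≤ ν b) ∧ ν ⊤ = 1 ∧ (∀ a b, Disjoint a b → ν (a ⊔ b) = ν a + ν b) ∧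
      ∀ b ∈ C, δ ≤ ν b := by
  classical
  -- the functional on the line spanned by `single ⊤ 1`
  let t : B →₀ ℝ := Finsupp.single ⊤ 1
  have ht : t ≠ 0 := by simp [t]
  let f : (B →₀ ℝ) →ₗ.[ℝ] ℝ := LinearPMap.mkSpanSingleton t (1 : ℝ) ht
  have hev : ∀ J : Ideal B, J.IsPrime → ∀ c : ℝ, ev J (c • t) = c := by
    intro J hJ c
    have : ev J t = 1 := by simp [ev, t, ind_top]
    rw [map_smul, this]; simp
  have hff : ∀ c : ℝ, ∀ hc : c • t ∈ f.domain, f ⟨c • t, hc⟩ = c := by
    intro c hc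
    have := LinearPMap.mkSpanSingleton'_apply (σ := RingHom.id ℝ) t (1 : ℝ)
      (fun c hc => (smul_eq_zero.1 hc).elim (fun hc => by rw [hc, RingHom.map_zero, zero_smul]) fun hx' =>
        absurd hx' ht) c hc
    simpa [f] using this
  obtain ⟨g, hg1, hg2⟩ := riesz_extension (cone C δ) f (by
    rintro ⟨x, hx⟩ hxs
    have hx' : x ∈ Submodule.span ℝ {t} := hx
    obtain ⟨c, rfl⟩ := Submodule.mem_span_singleton.mp hx'
    rw [hff c hx]
    obtain ⟨u, hu, huC, hle⟩ := hxs
    exact key C δ hδ h u hu huC c (fun J hJ => by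
      have := hle J hJ
      rwa [hev J hJ] at this)) (by
    intro y
    let c : ℝ := ∑ b ∈ y.support, |y b|
    have hm : c • t ∈ f.domain := by
      change c • t ∈ Submodule.span ℝ {t}
      exact Submodule.smul_mem _ _ (Submodule.mem_span_singleton_self t)
    refine ⟨⟨c • t, hm⟩, ⟨0, fun b => le_rfl, fun b hb => absurd rfl hb, fun J hJ => ?_⟩⟩
    rw [map_zero, map_add]
    change 0 ≤ ev J (c • t) + ev J y
    rw [hev J hJ]
    have : -c ≤ ev J y := by
      have e : ev J y = ∑ b ∈ y.support, y b * ind J b := by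
        simp [ev, Finsupp.linearCombination_apply, Finsupp.sum]
      rw [e, show -c = ∑ b ∈ y.support, -|y b| by simp [c]]
      apply Finset.sum_le_sum
      intro b _
      have i1 := ind_nonneg J b
      have i2 := ind_le_one J b
      have := neg_abs_le (y b)
      have := abs_nonneg (y b)
      rcases le_total 0 (y b) with h0 | h0
      · have := mul_nonneg h0 i1
        linarith
      · rw [abs_of_nonpos h0]; nlinarith
    linarith)
  have hpos : ∀ v : B →₀ ℝ, (∀ J : Ideal B, J.IsPrime → 0 ≤ ev J v) → 0 ≤ g v := by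
    intro v hv
    apply hg2
    exact ⟨0, fun b => le_rfl, fun b hb => absurd rfl hb, fun J hJ => by simpa using hv J hJ⟩
  have hev1 : ∀ (J : Ideal B) (b : B), ev J (Finsupp.single b 1) = ind J b := by
    intro J b; simp [ev]
  refine ⟨fun b => g (Finsupp.single b 1), fun b => ?_, ?_, ?_, ?_⟩
  · apply hpos
    intro J hJ
    rw [hev1]; exact ind_nonneg J b
  · have hm : (1 : ℝ) • t ∈ f.domain := by
      change (1 : ℝ) • t ∈ Submodule.span ℝ {t}
      exact Submodule.smul_mem _ _ (Submodule.mem_span_singleton_self t)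
    have := hg1 ⟨(1 : ℝ) • t, hm⟩
    rw [hff] at this
    simpa [t] using this
  · intro a b hab
    have h1 : 0 ≤ g (Finsupp.single (a ⊔ b) 1 - Finsupp.single a 1 - Finsupp.single b 1) := by
      apply hpos
      intro J hJ
      rw [map_sub, map_sub, hev1, hev1, hev1, ind_sup J hab]; linarith
    have h2 : 0 ≤ g (Finsupp.single a 1 + Finsupp.single b 1 - Finsupp.single (a ⊔ b) 1) := by
      apply hpos
      intro J hJ
      rw [map_sub, map_add, hev1, hev1, hev1, ind_sup J hab]; linarith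
    rw [map_sub, map_sub] at h1
    rw [map_sub, map_add] at h2
    change g (Finsupp.single (a ⊔ b) 1) = g (Finsupp.single a 1) + g (Finsupp.single b 1)
    linarith
  · intro b hb
    have h1 : 0 ≤ g (Finsupp.single b 1 - δ • t) := by
      apply hg2
      refine ⟨Finsupp.single b 1, fun c => ?_, fun c hc => ?_, fun J hJ => ?_⟩
      · by_cases h : c = b
        · subst h; simp
        · simp [Ne.symm h]
      · by_cases h : c = b
        · subst h; exact hb
        · exact absurd (by simp [Ne.symm h]) hc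
      · rw [map_sub, hev J hJ, hev1]
        simp [evs]
    rw [map_sub, map_smul] at h1
    have hm : (1 : ℝ) • t ∈ f.domain := by
      change (1 : ℝ) • t ∈ Submodule.span ℝ {t}
      exact Submodule.smul_mem _ _ (Submodule.mem_span_singleton_self t)
    have h2 := hg1 ⟨(1 : ℝ) • t, hm⟩
    rw [hff] at h2
    have h3 : g t = 1 := by simpa using h2
    rw [h3] at h1
    simp only [smul_eq_mul, mul_one] at h1
    change δ ≤ g (Finsupp.single b 1)
    linarith

end Pool.Agent.H648BA
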