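import Pool.Agent.H648_BA.Defs

/-!
From a strictly positive finitely additive measure and a continuous outer measure to a strictly
positive countably additive measure, on a complete Boolean algebra.
-/

set_option autoImplicit false

namespace Pool.Agent.H648BA

open Filter Topology Function
open scoped ENNReal

variable {B : Type*} [CompleteBooleanAlgebra B]

/-- A partition of `b` into countably many pieces (possibly `⊥`). -/
structure IsPart (b : B) (f : ℕ → B) : Prop where
  disj : Pairwise (Disjoint on f)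
  sup : ⨆ n, f n = b

lemma IsPart.le {b : B} {f : ℕ → B} (h : IsPart b f) (n : ℕ) : f n ≤ b := by
  rw [← h.sup]; exact le_iSup f n

lemma IsPart.inf {b c : B} {f : ℕ → B} (h : IsPart b f) (hc : c ≤ b) : IsPart c (fun n => f n ⊓ c) := by
  refine ⟨fun i j hij => (h.disj hij).mono inf_le_left inf_le_left, ?_⟩
  rw [← iSup_inf_eq, h.sup]
  exact inf_eq_right.mpr hc

/-- partial union -/
def pu (f : ℕ → B) (K : ℕ) : B := (Finset.range K).sup f

lemma pu_succ (f : ℕ → B) (K : ℕ) : pu f (K + 1) = f K ⊔ pu f K := by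
  unfold pu
  rw [Finset.range_add_one, Finset.sup_insert]

lemma pu_mono (f : ℕ → B) : Monotone (pu f) := by
  intro a b hab
  exact Finset.sup_mono (Finset.range_mono hab)

lemma iSup_pu (f : ℕ → B) : ⨆ K, pu f K = ⨆ n, f n := by
  apply le_antisymm
  · apply iSup_le
    intro K
    apply Finset.sup_le
    intro n _
    exact le_iSup f n
  · apply iSup_le
    intro n
    refine le_iSup_of_le (n + 1) ?_
    rw [pu_succ]; exact le_sup_left

lemma disjoint_pu {f : ℕ → B} (h : Pairwise (Disjoint on f)) (K : ℕ) : Disjoint (f K) (pu f K) := by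
  unfold pu
  rw [Finset.disjoint_sup_right]
  intro i hi
  apply h
  have := Finset.mem_range.mp hi
  omega

lemma add_pu {N : B → ℝ≥0∞} (h0 : N ⊥ = 0) (hadd : ∀ a b, Disjoint a b → N (a ⊔ b) = N a + N b)
    {f : ℕ → B} (h : Pairwise (Disjoint on f)) (K : ℕ) : N (pu f K) = ∑ n ∈ Finset.range K, N (f n) := by
  induction K with
  | zero => simp [pu, h0]
  | succ K ih =>
    rw [pu_succ, hadd _ _ (disjoint_pu h K), ih, Finset.sum_range_succ, add_comm]

lemma mono_of_add {N : B → ℝ≥0∞} (hadd : ∀ a b, Disjoint a b → N (a ⊔ b) = N a + N b) :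
    Monotone N := by
  intro a b hab
  have : b = a ⊔ (b \ a) := by rw [sup_sdiff_cancel_right hab]
  rw [this, hadd _ _ disjoint_sdiff_self_right]
  exact le_self_add

/-- the countably additive part -/
noncomputable def ca (N : B → ℝ≥0∞) (b : B) : ℝ≥0∞ := ⨅ f : {f : ℕ → B // IsPart b f}, ∑' n, N (f.1 n)

lemma ca_le {N : B → ℝ≥0∞} {b : B} {f : ℕ → B} (h : IsPart b f) : ca N b ≤ ∑' n, N (f n) :=
  iInf_le (fun f : {f : ℕ → B // IsPart b f} => ∑' n, N (f.1 n)) ⟨f, h⟩

lemma ca_le_self {N : B → ℝ≥0∞} (h0 : N ⊥ = 0) (b : B) : ca N b ≤ N b := by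
  have hp : IsPart b (fun n => if n = 0 then b else ⊥) := by
    refine ⟨fun i j hij => ?_, ?_⟩
    · simp only [onFun]
      by_cases hi : i = 0 <;> by_cases hj : j = 0 <;> simp [hi, hj]
      exact absurd (hi.trans hj.symm) hij
    · apply le_antisymm
      · apply iSup_le; intro n; split_ifs <;> simp
      · exact le_iSup_of_le 0 (by simp)
  refine (ca_le hp).trans (le_of_eq ?_)
  rw [tsum_eq_single 0 (by intro n hn; simp [hn, h0])]
  simp

lemma ca_add {N : B → ℝ≥0∞} (h0 : N ⊥ = 0) (hadd : ∀ a b, Disjoint a b → N (a ⊔ b) = N a + N b)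
    {f : ℕ → B} (h : Pairwise (Disjoint on f)) : ca N (⨆ n, f n) = ∑' n, ca N (f n) := by
  apply le_antisymm
  · -- upper bound
    apply ENNReal.le_of_forall_pos_le_add
    intro ε hε hfin
    obtain ⟨ε', hε', hsum⟩ := ENNReal.exists_pos_sum_of_countable (ι := ℕ) (ENNReal.coe_pos.mpr hε).ne'
    have hex : ∀ n, ∃ g : ℕ → B, IsPart (f n) g ∧ ∑' k, N (g k) ≤ ca N (f n) + ε' n := by
      intro n
      have hne : ca N (f n) ≠ ∞ := by
        intro htop
        rw [ENNReal.tsum_eq_top_of_eq_top ⟨n, htop⟩] at hfin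
        exact lt_irrefl _ hfin
      have hlt : ca N (f n) < ca N (f n) + ε' n :=
        ENNReal.lt_add_right hne (by exact_mod_cast (hε' n).ne')
      obtain ⟨g, hg⟩ := iInf_lt_iff.mp hlt
      exact ⟨g.1, g.2, hg.le⟩
    choose g hg hgle using hex
    let F : ℕ × ℕ → B := fun p => g p.1 p.2
    let e : ℕ ≃ ℕ × ℕ := Nat.pairEquiv.symm
    have hp : IsPart (⨆ n, f n) (fun n => F (e n)) := by
      refine ⟨fun i j hij => ?_, ?_⟩
      · have hne : e i ≠ e j := fun h => hij (e.injective h)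
        change Disjoint (F (e i)) (F (e j))
        generalize e i = p at hne
        generalize e j = q at hne
        obtain ⟨a, b⟩ := p
        obtain ⟨c, d⟩ := q
        by_cases hac : a = c
        · subst hac
          have hbd : b ≠ d := fun h => hne (by rw [h])
          exact (hg a).disj hbd
        · exact (h hac).mono ((hg a).le b) ((hg c).le d)
      · rw [e.surjective.iSup_comp (g := F), iSup_prod]
        apply iSup_congr
        intro n
        exact (hg n).sup
    calc ca N (⨆ n, f n) ≤ ∑' n, N (F (e n)) := ca_le hp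
      _ = ∑' p, N (F p) := e.tsum_eq (fun p => N (F p))
      _ = ∑' n, ∑' k, N (g n k) := ENNReal.tsum_prod (f := fun a b => N (g a b))
      _ ≤ ∑' n, (ca N (f n) + ε' n) := ENNReal.tsum_le_tsum hgle
      _ = ∑' n, ca N (f n) + ∑' n, (ε' n : ℝ≥0∞) := ENNReal.tsum_add
      _ ≤ ∑' n, ca N (f n) + ε := by gcongr
  · -- lower bound
    apply le_iInf
    rintro ⟨g, hg⟩
    have h1 : ∀ k, ∑' n, N (g k ⊓ f n) ≤ N (g k) := by
      intro k
      rw [ENNReal.tsum_eq_iSup_nat]
      apply iSup_le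
      intro K
      have hd : Pairwise (Disjoint on (fun n => g k ⊓ f n)) :=
        fun i j hij => (h hij).mono inf_le_right inf_le_right
      rw [← add_pu h0 hadd hd K]
      apply mono_of_add hadd
      apply Finset.sup_le
      intro n _
      exact inf_le_left
    calc ∑' n, ca N (f n) ≤ ∑' n, ∑' k, N (g k ⊓ f n) := by
          apply ENNReal.tsum_le_tsum
          intro n
          exact ca_le (hg.inf (le_iSup f n))
      _ = ∑' k, ∑' n, N (g k ⊓ f n) := ENNReal.tsum_comm
      _ ≤ ∑' k, N (g k) := ENNReal.tsum_le_tsum h1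

lemma IsContinuousOuterMeasure.tail {m : B → ℝ} (hm : IsContinuousOuterMeasure m) {b : B}
    {d : ℕ → B} (hd : Monotone d) (hb : b ≤ ⨆ n, d n) :
    Tendsto (fun K => m (b \ d K)) atTop (𝓝 0) := by
  apply hm.cont
  · intro i j hij
    exact sdiff_le_sdiff_left (hd hij)
  · have h1 : ⨅ n, b \ d n = b \ ⨆ n, d n := by
      simp only [sdiff_eq, compl_iSup, inf_iInf]
    rw [h1, sdiff_eq_bot_iff]
    exact hb

lemma IsContinuousOuterMeasure.pu_le {m : B → ℝ} (hm : IsContinuousOuterMeasure m) (f : ℕ → B) (K : ℕ) :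
    m (pu f K) ≤ ∑ n ∈ Finset.range K, m (f n) := by
  induction K with
  | zero => simp [pu, hm.map_bot]
  | succ K ih =>
    rw [pu_succ, Finset.sum_range_succ]
    have := hm.subadd (f K) (pu f K)
    linarith

lemma ca_ne_zero {m : B → ℝ} (hm : IsContinuousOuterMeasure m) {N : B → ℝ≥0∞} (h0 : N ⊥ = 0)
    (hadd : ∀ a b, Disjoint a b → N (a ⊔ b) = N a + N b) (hpos : ∀ b, b ≠ ⊥ → N b ≠ 0)
    (b : B) (hb : b ≠ ⊥) : ca N b ≠ 0 := by
  intro hz
  have hmb := hm.pos b hb
  have hex : ∀ j : ℕ, ∃ g : ℕ → B, IsPart b g ∧ ∑' k, N (g k) < ((j : ℝ≥0∞) + 1)⁻¹ := by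
    intro j
    have : ca N b < ((j : ℝ≥0∞) + 1)⁻¹ := by
      rw [hz]
      apply ENNReal.inv_pos.mpr
      exact ENNReal.add_ne_top.mpr ⟨ENNReal.natCast_ne_top j, ENNReal.one_ne_top⟩
    obtain ⟨g, hg⟩ := iInf_lt_iff.mp this
    exact ⟨g.1, g.2, hg⟩
  choose g hg hlt using hex
  have hK : ∀ j : ℕ, ∃ K, m (b \ pu (g j) K) < m b / 2 * (1 / 2) ^ (j + 1) := by
    intro j
    have ht := hm.tail (pu_mono (g j)) (b := b) (by rw [iSup_pu, (hg j).sup])
    have hpos' : 0 < m b / 2 * (1 / 2) ^ (j + 1) := by positivity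
    exact ((ht.eventually (gt_mem_nhds hpos')).exists)
  choose K hK using hK
  set a : ℕ → B := fun j => b \ pu (g j) (K j) with ha
  set c : B := b \ ⨆ j, a j with hc
  -- m (⨆ a) ≤ m b / 2
  have hsum : ∀ n, ∑ j ∈ Finset.range n, m (a j) ≤ m b / 2 := by
    intro n
    calc ∑ j ∈ Finset.range n, m (a j) ≤ ∑ j ∈ Finset.range n, m b / 2 * (1 / 2) ^ (j + 1) :=
          Finset.sum_le_sum (fun j _ => (hK j).le)
      _ = m b / 2 * ∑ j ∈ Finset.range n, (1 / 2 : ℝ) ^ (j + 1) := by rw [Finset.mul_sum]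
      _ ≤ m b / 2 * 1 := by
          gcongr
          have : ∑ j ∈ Finset.range n, (1 / 2 : ℝ) ^ (j + 1) = 1 - (1 / 2) ^ n := by
            induction n with
            | zero => simp
            | succ n ih => rw [Finset.sum_range_succ, ih]; ring
          rw [this]
          have : (0 : ℝ) < (1 / 2) ^ n := by positivity
          linarith
      _ = m b / 2 := by ring
  have hma : m (⨆ j, a j) ≤ m b / 2 := by
    have ht := hm.tail (pu_mono a) (b := ⨆ j, a j) (by rw [iSup_pu])
    have hle : ∀ n, m (⨆ j, a j) ≤ m b / 2 + m ((⨆ j, a j) \ pu a n) := by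
      intro n
      have h1 : (⨆ j, a j) ≤ pu a n ⊔ ((⨆ j, a j) \ pu a n) := le_sup_sdiff
      have h2 := hm.mono _ _ h1
      have h3 := hm.subadd (pu a n) ((⨆ j, a j) \ pu a n)
      have h4 := hm.pu_le a n
      have h5 := hsum n
      linarith
    have ht' : Tendsto (fun n => m b / 2 + m ((⨆ j, a j) \ pu a n)) atTop (𝓝 (m b / 2 + 0)) :=
      ht.const_add _
    have := ge_of_tendsto' ht' hle
    linarith
  have hcne : c ≠ ⊥ := by
    intro hcb
    have h1 : b ≤ ⨆ j, a j := by rwa [hc, sdiff_eq_bot_iff] at hcb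
    have := hm.mono _ _ h1
    linarith
  have hcle : ∀ j, c ≤ pu (g j) (K j) := by
    intro j
    have h1 : c ≤ b \ a j := sdiff_le_sdiff_left (le_iSup a j)
    refine h1.trans ?_
    rw [ha]
    simp only
    rw [sdiff_sdiff_right_self]
    exact inf_le_right
  have hN : ∀ j : ℕ, N c ≤ ((j : ℝ≥0∞) + 1)⁻¹ := by
    intro j
    calc N c ≤ N (pu (g j) (K j)) := mono_of_add hadd (hcle j)
      _ = ∑ n ∈ Finset.range (K j), N (g j n) := add_pu h0 hadd (hg j).disj _
      _ ≤ ∑' n, N (g j n) := ENNReal.sum_le_tsum _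
      _ ≤ _ := (hlt j).le
  apply hpos c hcne
  have ht : Tendsto (fun j : ℕ => ((j : ℝ≥0∞) + 1)⁻¹) atTop (𝓝 0) := by
    have h1 := ENNReal.tendsto_inv_nat_nhds_zero
    have h2 := (tendsto_add_atTop_iff_nat 1).mpr h1
    refine h2.congr (fun n => ?_)
    push_cast; rfl
  exact le_antisymm (ge_of_tendsto' ht hN) bot_le

end Pool.Agent.H648BA
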